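import Pool.Agent.W217.BE.Stm2

/-!
Project BE, part G2ZERO: the case of no variables.
-/

set_option autoImplicit false

namespace Pool.Agent.W659.BEG2ZERO

open Pool.Agent.W217.BE

theorem smul_eq {A : Type} [CommRing A] {M : Type} [AddCommGroup M] [Module A M]
    [Module (MvPolynomial (Fin 0) A) M] [IsScalarTower A (MvPolynomial (Fin 0) A) M]
    (a : A) (x : M) : (MvPolynomial.C a : MvPolynomial (Fin 0) A) • x = a • x := by
  have h := algebraMap_smul (MvPolynomial (Fin 0) A) a x
  rw [MvPolynomial.algebraMap_eq] at h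
  exact h

theorem main : ISO → G2ZERO := by
  intro hISO A κ _ _ _ χ c J M _ _ _ _ _ ℳ _ _ hNZ _ hB
  have hsurj : Function.Surjective (Algebra.linearMap A (MvPolynomial (Fin 0) A)) := by
    intro q
    refine ⟨MvPolynomial.coeff 0 q, ?_⟩
    rw [Algebra.linearMap_apply, MvPolynomial.algebraMap_eq]
    exact (MvPolynomial.eq_C_of_isEmpty q).symm
  have hf1 : Module.Finite A (MvPolynomial (Fin 0) A) := Module.Finite.of_surjective _ hsurj
  have hf2 : Module.Finite A M := Module.Finite.trans (MvPolynomial (Fin 0) A) M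
  have hchi : ∀ a : A, chiJ χ J (MvPolynomial.C a) = χ a := by
    intro a
    simp [chiJ]
  have hNZ' : NZ χ M := by
    obtain ⟨x, hx⟩ := hNZ
    refine ⟨x, fun s hs => ?_⟩
    have h1 := hx (MvPolynomial.C s) (by rw [hchi]; exact hs)
    rwa [smul_eq] at h1
  have hHB : HB χ M (fun i => c.choose i) := by
    refine hB M hNZ' ?_
    rintro a ⟨α, _, hα⟩ y
    have h0 : α = 0 := Subsingleton.elim _ _
    have h1 := hα y
    rw [h0] at h1
    have h2 : (MvPolynomial.monomial 0 a : MvPolynomial (Fin 0) A) = MvPolynomial.C a := rfl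
    rw [h2, smul_eq] at h1
    exact h1
  have hfin := hISO A (MvPolynomial (Fin 0) A) κ (MvPolynomial.isEmptyRingEquiv A (Fin 0)).symm χ
    (chiJ χ J) M M (AddEquiv.refl M) (fun i => c.choose i) ?_ ?_ hHB
  · have hs : (fun i => (c + ∑ j : Fin 0, if J j = true then 1 else 0).choose i)
        = (fun i => c.choose i) := by
      funext i
      simp
    rw [hs]
    exact hfin
  · intro s
    rw [← hchi s]
    congr 1
  · intro s x
    have h3 : (MvPolynomial.isEmptyRingEquiv A (Fin 0)).symm s
        = (MvPolynomial.C s : MvPolynomial (Fin 0) A) := rfl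
    rw [h3]
    change s • x = (MvPolynomial.C s : MvPolynomial (Fin 0) A) • x
    rw [smul_eq]

end Pool.Agent.W659.BEG2ZERO
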